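import Pool.Agent.Helper672.ZFA.Final

/-!
# In set theory with atoms, bases of vector spaces imply the axiom of choice

We show that in every model of Zermelo set theory with atoms (hence in every model of ZFA), if
every vector space has a basis then the axiom of choice holds. By the completeness theorem this
says that ZFA (indeed Zermelo set theory with atoms) proves VB → AC.

Outline of the proof (everything is done inside an arbitrary, possibly nonstandard, model).
* VB gives multiple choice (Blass): a function picking from every nonempty subset of a set a
  finite nonempty subset. We use the fraction field of a ring of polynomial functions.
* Multiple choice and bases for vector spaces over the rational numbers of the model give a
  linear order of every set. We look at systems of linear orders of the finite subsets of a set,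
  closed under restriction and extension. If no finite set is stable for a system then a tower of
  finite sets, the vector space of cocycles of the tower, a finite set of bases of it, and the
  sums of the basis vectors of bounded level define a proper subsystem; this contradicts the
  Bourbaki-Witt theorem. A stable set gives a linear order.
-/

namespace Pool.Agent.Results.MP_41b158_lc.BasesImplyChoice

open Pool.Agent.Helper672.ZFA

universe u

/-- Every model of Zermelo set theory with atoms that satisfies VB satisfies AC. -/
theorem result (M : Type u) [L.Structure M] [ZermeloAtoms M] (h : VB M) : AC M := by
  have : IsModel M := ZermeloAtoms.isModel
  exact h.ac

end Pool.Agent.Results.MP_41b158_lc.BasesImplyChoice
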